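import Pool.Agent.Run7.h676.NI.Iface

set_option autoImplicit false

open scoped commutatorElement

namespace Run7.h890.NI

open Pool.Agent.Run7.h676.NI

variable {Γ : Type} [Group Γ]

theorem cl2_comm {R : Subgroup Γ} (h : Cl2 R) {x y z : Γ} (hx : x ∈ R) (hy : y ∈ R) (hz : z ∈ R) :
    ⁅x, y⁆ * z = z * ⁅x, y⁆ :=
  commutatorElement_eq_one_iff_mul_comm.1 (h x hx y hy z hz)

theorem comm_mem {R : Subgroup Γ} {x y : Γ} (hx : x ∈ R) (hy : y ∈ R) : ⁅x, y⁆ ∈ R := by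
  rw [commutatorElement_def]
  exact R.mul_mem (R.mul_mem (R.mul_mem hx hy) (R.inv_mem hx)) (R.inv_mem hy)

theorem cl2_mul {R : Subgroup Γ} (h : Cl2 R) {x x' y : Γ} (hx : x ∈ R) (hx' : x' ∈ R) (hy : y ∈ R) :
    ⁅x * x', y⁆ = ⁅x', y⁆ * ⁅x, y⁆ := by
  have h1 : ⁅x * x', y⁆ = (x * ⁅x', y⁆) * (x⁻¹ * ⁅x, y⁆) := by
    simp only [commutatorElement_def]; group
  rw [h1, ← cl2_comm h hx' hy hx]
  group

theorem cl2_inv {R : Subgroup Γ} (h : Cl2 R) {x y : Γ} (hx : x ∈ R) (hy : y ∈ R) :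
    ⁅x⁻¹, y⁆ = ⁅x, y⁆⁻¹ := by
  have h1 := cl2_mul h (R.inv_mem hx) hx hy
  rw [inv_mul_cancel, commutatorElement_one_left] at h1
  exact (inv_eq_of_mul_eq_one_right h1.symm).symm

theorem U_sub {R U : Subgroup Γ} (hU : NIn R U) {u : Γ} (hu : u ∈ U) : u ∈ Rad R U :=
  ⟨hU.le hu, fun y hy => hU.nor u hu y hy⟩

/-- `Rad R U` as a subgroup -/
def RadS {R U : Subgroup Γ} (h : Cl2 R) (_hU : NIn R U) : Subgroup Γ where
  carrier := Rad R U
  one_mem' := ⟨R.one_mem, fun y _ => by rw [commutatorElement_one_left]; exact U.one_mem⟩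
  mul_mem' := by
    rintro a b ⟨ha, ha2⟩ ⟨hb, hb2⟩
    refine ⟨R.mul_mem ha hb, fun y hy => ?_⟩
    rw [cl2_mul h ha hb hy]
    exact U.mul_mem (hb2 y hy) (ha2 y hy)
  inv_mem' := by
    rintro a ⟨ha, ha2⟩
    refine ⟨R.inv_mem ha, fun y hy => ?_⟩
    rw [cl2_inv h ha hy]
    exact U.inv_mem (ha2 y hy)

theorem stb_U {V R U : Subgroup Γ} (hU : NIn R U) {v : Γ} (hv : v ∈ Stb V R U) {u : Γ} (hu : u ∈ U) :
    v * u * v⁻¹ ∈ U := by
  have h1 := U.mul_mem hu (hv.2 u (U_sub hU hu))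
  have h2 : u * (u⁻¹ * (v * u * v⁻¹)) = v * u * v⁻¹ := by group
  rwa [h2] at h1

theorem stb_mul {V R U : Subgroup Γ} (hU : NIn R U) {v v' : Γ} (hv : v ∈ Stb V R U)
    (hv' : v' ∈ Stb V R U) : v * v' ∈ Stb V R U := by
  refine ⟨V.mul_mem hv.1 hv'.1, fun r hr => ?_⟩
  have h1 := hv'.2 r hr
  have h2 := stb_U hU hv h1
  have h3 := U.mul_mem (hv.2 r hr) h2
  have h4 : r⁻¹ * (v * r * v⁻¹) * (v * (r⁻¹ * (v' * r * v'⁻¹)) * v⁻¹) =
      r⁻¹ * (v * v' * r * (v * v')⁻¹) := by group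
  rwa [h4] at h3

theorem stb_one {V R U : Subgroup Γ} : (1 : Γ) ∈ Stb V R U :=
  ⟨V.one_mem, fun r _ => by
    have : r⁻¹ * (1 * r * 1⁻¹) = 1 := by group
    rw [this]; exact U.one_mem⟩

theorem stb_pow {V R U : Subgroup Γ} (hU : NIn R U) {v : Γ} (hv : v ∈ Stb V R U) (n : ℕ) :
    v ^ n ∈ Stb V R U := by
  induction n with
  | zero => rw [pow_zero]; exact stb_one
  | succ n ih => rw [pow_succ]; exact stb_mul hU ih hv

theorem stb_inv [Finite Γ] {V R U : Subgroup Γ} (hU : NIn R U) {v : Γ} (hv : v ∈ Stb V R U) :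
    v⁻¹ ∈ Stb V R U := by
  have h1 : v ^ (orderOf v - 1) * v = 1 := by
    rw [← pow_succ, Nat.sub_add_cancel (orderOf_pos v), pow_orderOf_eq_one]
  rw [inv_eq_of_mul_eq_one_left h1]
  exact stb_pow hU hv _

/-- `Stb V R U` as a subgroup -/
def StbS [Finite Γ] {R U : Subgroup Γ} (V : Subgroup Γ) (hU : NIn R U) : Subgroup Γ where
  carrier := Stb V R U
  one_mem' := stb_one
  mul_mem' := fun ha hb => stb_mul hU ha hb
  inv_mem' := fun ha => stb_inv hU ha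

theorem t_RAD : S_RAD := fun _ _ _ _ V _ h hU => ⟨⟨RadS h hU, rfl⟩, ⟨StbS V hU, rfl⟩⟩

/-- the powers of `c` stay in `U` if they do so for `p` -/
theorem mem_of_pow {U : Subgroup Γ} {p m : ℕ} (hp : p.Prime) (hm : ¬ p ∣ m) {c : Γ}
    (h1 : c ^ p ∈ U) (h2 : c ^ m ∈ U) : c ∈ U := by
  have hc : IsCoprime (p : ℤ) (m : ℤ) := Nat.isCoprime_iff_coprime.2 ((Nat.Prime.coprime_iff_not_dvd hp).2 hm)
  obtain ⟨s, t, hst⟩ := hc
  have h3 : c = (c ^ p) ^ s * (c ^ m) ^ t := by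
    rw [← zpow_natCast, ← zpow_natCast, ← zpow_mul, ← zpow_mul, ← zpow_add, mul_comm (p : ℤ),
      mul_comm (m : ℤ), hst, zpow_one]
  rw [h3]
  exact U.mul_mem (U.zpow_mem h1 _) (U.zpow_mem h2 _)

theorem t_C1' : S_C1 := by
  intro Γ _ _ p R V U hEA hN hcl hcard hU hfaith b hb hrad
  refine hfaith b hb.1 fun x hx => ?_
  set c := x⁻¹ * (b * x * b⁻¹) with hc
  have hcR := hrad x hx
  rw [← hc] at hcR
  have key : ∀ i : ℕ, (c ^ i)⁻¹ * (x⁻¹ * (b ^ i * x * (b ^ i)⁻¹)) ∈ U := by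
    intro i
    induction i with
    | zero =>
      have : (c ^ 0)⁻¹ * (x⁻¹ * (b ^ 0 * x * (b ^ 0)⁻¹)) = 1 := by simp
      rw [this]; exact U.one_mem
    | succ i ih =>
      have h1 := stb_U hU hb ih
      have h2 : c ^ i ∈ Rad R U := (RadS hcl hU).pow_mem hcR i
      have h3 := hb.2 _ h2
      have h4 := U.mul_mem h3 h1
      have h5 : (c ^ i)⁻¹ * (b * c ^ i * b⁻¹) *
          (b * ((c ^ i)⁻¹ * (x⁻¹ * (b ^ i * x * (b ^ i)⁻¹))) * b⁻¹) =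
          (c ^ (i + 1))⁻¹ * (x⁻¹ * (b ^ (i + 1) * x * (b ^ (i + 1))⁻¹)) := by
        have hcinv : c⁻¹ = b * x⁻¹ * b⁻¹ * x := by rw [hc]; group
        rw [pow_succ' c, pow_succ' b, mul_inv_rev c, hcinv]
        generalize c ^ i = C
        generalize b ^ i = B
        group
      rwa [h5] at h4
  have h1 := key p
  rw [hEA.exp b hb.1] at h1
  have h2 : (c ^ p)⁻¹ ∈ U := by
    have : (c ^ p)⁻¹ * (x⁻¹ * (1 * x * 1⁻¹)) = (c ^ p)⁻¹ := by group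
    rwa [this] at h1
  have h3 : c ^ p ∈ U := by
    have := U.inv_mem h2
    rwa [inv_inv] at this
  refine mem_of_pow hEA.prime hcard h3 ?_
  have h4 : (⟨c, hcR.1⟩ : R) ^ Nat.card R = 1 := pow_card_eq_one'
  have h5 : c ^ Nat.card R = 1 := by
    calc c ^ Nat.card R = (((⟨c, hcR.1⟩ : R) ^ Nat.card R : R) : Γ) := rfl
      _ = 1 := by rw [h4]; rfl
  rw [h5]; exact U.one_mem

theorem t_C1 : S_RAD → S_C1 := fun _ => t_C1'

/-- `V` is generated by `V'` and `b` -/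
theorem gen_fix [Finite Γ] {p : ℕ} {V V' : Subgroup Γ} (hp : p.Prime) (hle : V' ≤ V)
    (hcard : Nat.card V = p * Nat.card V') {b : Γ} (hbV : b ∈ V) (hb : b ∉ V') {x : Γ}
    (h1 : ∀ v ∈ V', v * x = x * v) (h2 : b * x = x * b) : ∀ v ∈ V, v * x = x * v := by
  set K : Subgroup Γ := V ⊓ Subgroup.centralizer {x} with hK
  have m1 : ∀ v, v ∈ K ↔ v ∈ V ∧ v * x = x * v := by
    intro v
    rw [hK, Subgroup.mem_inf, Subgroup.mem_centralizer_singleton_iff]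
  have hV'K : V' ≤ K := fun v hv => (m1 v).2 ⟨hle hv, h1 v hv⟩
  have hKV : K ≤ V := fun v hv => ((m1 v).1 hv).1
  have hbK : b ∈ K := (m1 b).2 ⟨hbV, h2⟩
  obtain ⟨m, hm⟩ := Subgroup.card_dvd_of_le hV'K
  obtain ⟨n, hn⟩ := Subgroup.card_dvd_of_le hKV
  have hpos : 0 < Nat.card V' := Nat.card_pos
  have hmn : p = m * n := by
    have : Nat.card V' * p = Nat.card V' * (m * n) := by
      rw [mul_comm, ← hcard, hn, hm, mul_assoc]
    exact Nat.eq_of_mul_eq_mul_left hpos this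
  have hKeq : K = V := by
    rcases (Nat.prime_mul_iff.1 (hmn ▸ hp)) with ⟨_, hn1⟩ | ⟨_, hm1⟩
    · refine Subgroup.eq_of_le_of_card_ge hKV ?_
      rw [hn, hn1, mul_one]
    · exfalso
      apply hb
      have : V' = K := by
        refine Subgroup.eq_of_le_of_card_ge hV'K ?_
        rw [hm, hm1, mul_one]
      rw [this]; exact hbK
  intro v hv
  rw [← hKeq] at hv
  exact ((m1 v).1 hv).2

theorem surj [Finite Γ] {C : Subgroup Γ} {b : Γ} (hst : ∀ y ∈ C, b * y * b⁻¹ ∈ C)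
    (hfix : ∀ y ∈ C, b * y = y * b → y = 1) : ∀ x ∈ C, ∃ y ∈ C, x = y⁻¹ * (b * y * b⁻¹) := by
  let f : C → C := fun y => ⟨(y : Γ)⁻¹ * (b * y * b⁻¹), C.mul_mem (C.inv_mem y.2) (hst y y.2)⟩
  have hinj : Function.Injective f := by
    intro y z hyz
    have h1 : (y : Γ)⁻¹ * (b * y * b⁻¹) = (z : Γ)⁻¹ * (b * z * b⁻¹) := congrArg Subtype.val hyz
    have h2 : b * ((z : Γ) * (y : Γ)⁻¹) = ((z : Γ) * (y : Γ)⁻¹) * b := by
      have h3 : (z : Γ) * ((y : Γ)⁻¹ * (b * y * b⁻¹)) = b * z * b⁻¹ := by rw [h1]; group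
      have h4 : (b * z * b⁻¹) * (b * (y : Γ)⁻¹) = ((z : Γ) * (y : Γ)⁻¹) * b := by
        rw [← h3]; group
      rw [← h4]; group
    have h3 := hfix _ (C.mul_mem z.2 (C.inv_mem y.2)) h2
    exact Subtype.ext (mul_inv_eq_one.1 h3).symm
  have hsurj := Finite.injective_iff_surjective.1 hinj
  intro x hx
  obtain ⟨y, hy⟩ := hsurj ⟨x, hx⟩
  exact ⟨y, y.2, (congrArg Subtype.val hy).symm⟩

theorem t_C3 : S_C3 := by
  intro Γ _ _ p R V U hEA hN hcl hfpf hU V' hle hcard b hb hbV'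
  have mC : ∀ y, y ∈ R ⊓ Subgroup.centralizer (V' : Set Γ) ↔ y ∈ R ∧ ∀ v ∈ V', v * y = y * v := by
    intro y
    rw [Subgroup.mem_inf, Subgroup.mem_centralizer_iff]
    rfl
  have stC : ∀ y, (∀ v ∈ V', v * y = y * v) → ∀ v ∈ V', v * (b * y * b⁻¹) = b * y * b⁻¹ * v := by
    intro y hy v hv
    have h1 : v * b = b * v := hEA.comm v (hle hv) b hb.1
    have h2 : b⁻¹ * v = v * b⁻¹ := by
      have := congrArg (fun t => b⁻¹ * t * b⁻¹) h1
      simpa [mul_assoc] using this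
    calc v * (b * y * b⁻¹) = (v * b) * y * b⁻¹ := by group
      _ = b * (v * y) * b⁻¹ := by rw [h1]; group
      _ = b * y * (v * b⁻¹) := by rw [hy v hv]; group
      _ = b * y * b⁻¹ * v := by rw [← h2]; group
  constructor
  · intro x hx hxV
    have := surj (C := R ⊓ Subgroup.centralizer (V' : Set Γ)) (b := b)
      (fun y hy => (mC _).2 ⟨hN.conj_mem y ((mC y).1 hy).1 b, stC y ((mC y).1 hy).2⟩)
      (fun y hy hby => hfpf y ((mC y).1 hy).1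
        (gen_fix hEA.prime hle hcard hb.1 hbV' ((mC y).1 hy).2 hby)) x ((mC x).2 ⟨hx, hxV⟩)
    obtain ⟨y, hy, hxy⟩ := this
    exact ⟨y, ((mC y).1 hy).1, ((mC y).1 hy).2, hxy⟩
  · intro x hx y hy hxV hyV
    set Z : Subgroup Γ := (R ⊓ Subgroup.centralizer (V' : Set Γ)) ⊓ Subgroup.centralizer (R : Set Γ) with hZ
    have mZ : ∀ z, z ∈ Z ↔ (z ∈ R ∧ ∀ v ∈ V', v * z = z * v) ∧ ∀ r ∈ R, r * z = z * r := by
      intro z
      rw [hZ, Subgroup.mem_inf, mC, Subgroup.mem_centralizer_iff]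
      rfl
    have hz : ⁅x, y⁆ ∈ Z := by
      have hxC : x ∈ Subgroup.centralizer (V' : Set Γ) := Subgroup.mem_centralizer_iff.2 hxV
      have hyC : y ∈ Subgroup.centralizer (V' : Set Γ) := Subgroup.mem_centralizer_iff.2 hyV
      refine (mZ _).2 ⟨⟨comm_mem hx hy, ?_⟩, fun r hr => (cl2_comm hcl hx hy hr).symm⟩
      exact Subgroup.mem_centralizer_iff.1 (comm_mem hxC hyC)
    obtain ⟨t, ht, hxt⟩ := surj (C := Z) (b := b) (fun z hz => by
      obtain ⟨⟨h1, h2⟩, h3⟩ := (mZ z).1 hz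
      refine (mZ _).2 ⟨⟨hN.conj_mem z h1 b, stC z h2⟩, fun r hr => ?_⟩
      have h4 := h3 (b⁻¹ * r * b) (by
        have := hN.conj_mem r hr b⁻¹
        rwa [inv_inv] at this)
      calc r * (b * z * b⁻¹) = b * ((b⁻¹ * r * b) * z) * b⁻¹ := by group
        _ = b * z * b⁻¹ * r := by rw [h4]; group)
      (fun z hz hbz => hfpf z ((mZ z).1 hz).1.1
        (gen_fix hEA.prime hle hcard hb.1 hbV' ((mZ z).1 hz).1.2 hbz)) _ hz
    rw [hxt]
    obtain ⟨⟨h1, h2⟩, h3⟩ := (mZ t).1 ht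
    refine hb.2 t ⟨h1, fun r hr => ?_⟩
    have : ⁅t, r⁆ = 1 := commutatorElement_eq_one_iff_mul_comm.2 (h3 r hr).symm
    rw [this]; exact U.one_mem

end Run7.h890.NI
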